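import Pool.Agent.H43.G.R_pool_sql_team_seeded_3997aac3.Q240.KT.Stm
import Pool.Agent.H43.G.R_pool_sql_team_seeded_3997aac3.Q211.KS.Pow
import Pool.Agent.H43.G.R_seed8.H376R2.MR.Mv

/-!
# Project KT (helper240): moments of short Dirichlet polynomials
-/

set_option autoImplicit false

namespace Pool.Agent.Q198.KT

open Finset Pool.Agent.H376R2.MR Pool.Agent.Q240.KS Pool.Agent.Q240.KT

/-- powers of Dirichlet polynomials -/
theorem pow_short (m : ℕ) : ∀ ε : ℝ, 0 < ε → ∃ C : ℝ, 1 ≤ C ∧ ∀ (s : Finset ℕ) (a : ℕ → ℂ) (H : ℝ), 1 ≤ H →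
    (∀ n ∈ s, 1 ≤ n ∧ |Real.log n - Real.log H| ≤ 1) → (∀ n ∈ s, ‖a n‖ ≤ 1) →
    ∃ (s' : Finset ℕ) (b : ℕ → ℂ), (∀ k : ℤ, DP s a k ^ m = DP s' b k) ∧
      (∀ n ∈ s', 1 ≤ n ∧ |Real.log n - m * Real.log H| ≤ m) ∧ ∀ n ∈ s', ‖b n‖ ≤ C * H ^ ε := by
  classical
  induction m with
  | zero =>
    intro ε hε
    refine ⟨1, le_rfl, fun s a H hH hs ha => ⟨{1}, fun _ => 1, fun k => ?_, fun n hn => ?_, fun n hn => ?_⟩⟩
    · simp [DP, ch]
    · rw [Finset.mem_singleton] at hn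
      subst hn
      simp
    · have : (1 : ℝ) ≤ H ^ ε := Real.one_le_rpow hH hε.le
      simpa using this
  | succ m ih =>
    intro ε hε
    obtain ⟨C₁, hC₁, h1⟩ := ih (ε / 2) (by positivity)
    obtain ⟨C₃, hC₃, h3⟩ := Pool.Agent.Helper112.divisor_bound (ε / (2 * (m + 1))) (by positivity)
    refine ⟨max 1 (C₃ * Real.exp (ε / 2) * C₁), le_max_left _ _, fun s a H hH hs ha => ?_⟩
    obtain ⟨s', b, hb1, hb2, hb3⟩ := h1 s a H hH hs ha
    have hs0 : ∀ n ∈ s, 1 ≤ n := fun n hn => (hs n hn).1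
    have hs' : ∀ n ∈ s', 1 ≤ n := fun n hn => (hb2 n hn).1
    have hHpos : (0 : ℝ) < H := by linarith
    have hn1 : ∀ n : ℕ, n ∈ (s' ×ˢ s).image (fun p => p.1 * p.2) →
        1 ≤ n ∧ |Real.log n - ((m + 1 : ℕ) : ℝ) * Real.log H| ≤ ((m + 1 : ℕ) : ℝ) := by
      intro n hn
      rw [Finset.mem_image] at hn
      obtain ⟨p, hp, rfl⟩ := hn
      rw [Finset.mem_product] at hp
      obtain ⟨a1, a2⟩ := hb2 _ hp.1
      obtain ⟨c1, c2⟩ := hs _ hp.2
      have e1 : (p.1 : ℝ) ≠ 0 := by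
        have : p.1 ≠ 0 := by omega
        exact_mod_cast this
      have e2 : (p.2 : ℝ) ≠ 0 := by
        have : p.2 ≠ 0 := by omega
        exact_mod_cast this
      refine ⟨Nat.mul_pos a1 c1, ?_⟩
      rw [Nat.cast_mul, Real.log_mul e1 e2]
      push_cast
      rw [abs_le] at a2 c2 ⊢
      constructor <;> linarith [a2.1, a2.2, c2.1, c2.2]
    refine ⟨(s' ×ˢ s).image (fun p => p.1 * p.2),
      fun n => ∑ p ∈ (s' ×ˢ s).filter (fun p => p.1 * p.2 = n), b p.1 * a p.2, fun k => ?_, hn1, ?_⟩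
    · rw [pow_succ, hb1 k]
      exact Pool.Agent.Q211.KS.DP_mul s' s b a hs' hs0 k
    · intro n hn
      obtain ⟨hn2, hn3⟩ := hn1 n hn
      have hn0 : (0 : ℝ) < n := by exact_mod_cast hn2
      have hcard : (((s' ×ˢ s).filter (fun p => p.1 * p.2 = n)).card : ℝ) ≤ n.divisors.card := by
        have : ((s' ×ˢ s).filter (fun p => p.1 * p.2 = n)).card ≤ n.divisors.card := by
          refine Finset.card_le_card_of_injOn (fun p => p.1) ?_ ?_
          · intro p hp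
            rw [Finset.mem_coe, Finset.mem_filter] at hp
            rw [Finset.mem_coe, Nat.mem_divisors]
            exact ⟨⟨p.2, hp.2.symm⟩, by omega⟩
          · intro p hp q hq hpq
            rw [Finset.mem_coe, Finset.mem_filter, Finset.mem_product] at hp hq
            have hpq' : p.1 = q.1 := hpq
            refine Prod.ext hpq' ?_
            have h5 : p.1 * p.2 = p.1 * q.2 := by
              rw [hp.2, hpq', hq.2]
            exact Nat.eq_of_mul_eq_mul_left (hs' _ hp.1.1) h5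
        exact_mod_cast this
      have hdiv : (n.divisors.card : ℝ) ≤ C₃ * (Real.exp (ε / 2) * H ^ (ε / 2)) := by
        refine (h3 n hn2).trans (mul_le_mul_of_nonneg_left ?_ hC₃.le)
        rw [Real.rpow_def_of_pos hn0, Real.rpow_def_of_pos hHpos, ← Real.exp_add]
        apply Real.exp_le_exp.2
        have hl : Real.log n ≤ (m + 1) * (1 + Real.log H) := by
          have := (abs_le.1 hn3).2
          push_cast at this
          linarith
        calc Real.log n * (ε / (2 * (m + 1))) ≤ (m + 1) * (1 + Real.log H) * (ε / (2 * (m + 1))) :=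
              mul_le_mul_of_nonneg_right hl (by positivity)
          _ = ε / 2 + Real.log H * (ε / 2) := by
            field_simp
      have hterm : ∀ p ∈ (s' ×ˢ s).filter (fun p => p.1 * p.2 = n), ‖b p.1 * a p.2‖ ≤ C₁ * H ^ (ε / 2) := by
        intro p hp
        rw [Finset.mem_filter, Finset.mem_product] at hp
        rw [norm_mul]
        calc ‖b p.1‖ * ‖a p.2‖ ≤ (C₁ * H ^ (ε / 2)) * 1 :=
              mul_le_mul (hb3 _ hp.1.1) (ha _ hp.1.2) (norm_nonneg _) (by positivity)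
          _ = _ := mul_one _
      have hexp : H ^ (ε / 2) * H ^ (ε / 2) = H ^ ε := by
        rw [← Real.rpow_add hHpos]
        congr 1
        ring
      calc ‖∑ p ∈ (s' ×ˢ s).filter (fun p => p.1 * p.2 = n), b p.1 * a p.2‖ ≤
          ∑ p ∈ (s' ×ˢ s).filter (fun p => p.1 * p.2 = n), ‖b p.1 * a p.2‖ := norm_sum_le _ _
        _ ≤ ∑ p ∈ (s' ×ˢ s).filter (fun p => p.1 * p.2 = n), C₁ * H ^ (ε / 2) := Finset.sum_le_sum hterm
        _ = ((s' ×ˢ s).filter (fun p => p.1 * p.2 = n)).card * (C₁ * H ^ (ε / 2)) := by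
            rw [Finset.sum_const, nsmul_eq_mul]
        _ ≤ (C₃ * (Real.exp (ε / 2) * H ^ (ε / 2))) * (C₁ * H ^ (ε / 2)) :=
            mul_le_mul_of_nonneg_right (hcard.trans hdiv) (by positivity)
        _ = (C₃ * Real.exp (ε / 2) * C₁) * (H ^ (ε / 2) * H ^ (ε / 2)) := by ring
        _ = (C₃ * Real.exp (ε / 2) * C₁) * H ^ ε := by rw [hexp]
        _ ≤ _ := mul_le_mul_of_nonneg_right (le_max_right _ _) (by positivity)

/-- **moments of short polynomials** -/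
theorem pmv : S_PMV := by
  classical
  intro m ε hm hε
  obtain ⟨C₁, hC₁, h1⟩ := pow_short m (ε / 2) (by positivity)
  obtain ⟨C₂, hC₂, h2⟩ := mv
  refine ⟨max 1 (C₂ * (1 + 2 * m) * C₁ ^ 2 * Real.exp (2 * m)), le_max_left _ _, ?_⟩
  intro s a H K hH hK hs ha
  obtain ⟨s', b, hb1, hb2, hb3⟩ := h1 s a H hH hs ha
  have hHpos : (0 : ℝ) < H := by linarith
  have hlH : 0 ≤ Real.log H := Real.log_nonneg hH
  have hK0 : (0 : ℝ) < K := by exact_mod_cast hK
  set N₂ : ℝ := Real.exp m * H ^ m with hN₂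
  set N₁ : ℝ := max 1 (Real.exp (-m) * H ^ m) with hN₁
  have hHm : (1 : ℝ) ≤ H ^ m := one_le_pow₀ hH
  have hHm0 : (0 : ℝ) < H ^ m := by positivity
  have he1 : (1 : ℝ) ≤ Real.exp m := Real.one_le_exp (Nat.cast_nonneg m)
  have he2 : Real.exp (-(m : ℝ)) ≤ Real.exp m := Real.exp_le_exp.2 (by
    have : (0 : ℝ) ≤ m := Nat.cast_nonneg m
    linarith)
  have hN12 : N₁ ≤ N₂ := by
    apply max_le
    · calc (1 : ℝ) = 1 * 1 := by ring
        _ ≤ _ := mul_le_mul he1 hHm zero_le_one (by positivity)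
    · exact mul_le_mul_of_nonneg_right he2 hHm0.le
  have hN₁1 : 1 ≤ N₁ := le_max_left _ _
  have hN₂1 : 1 ≤ N₂ := hN₁1.trans hN12
  have hlogHm : Real.log (H ^ m) = m * Real.log H := by
    rw [Real.log_pow]
  have hmem : ∀ n ∈ s', N₁ ≤ (n : ℝ) ∧ (n : ℝ) ≤ N₂ := by
    intro n hn
    obtain ⟨hn1, hn2⟩ := hb2 n hn
    have hn0 : (0 : ℝ) < n := by exact_mod_cast hn1
    have hn3 := abs_le.1 hn2
    constructor
    · apply max_le
      · exact_mod_cast hn1
      · rw [← Real.log_le_log_iff (by positivity) hn0, Real.log_mul (Real.exp_pos _).ne' hHm0.ne',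
          Real.log_exp, hlogHm]
        linarith [hn3.1]
    · rw [← Real.log_le_log_iff hn0 (by positivity), Real.log_mul (Real.exp_pos _).ne' hHm0.ne',
        Real.log_exp, hlogHm]
      linarith [hn3.2]
  have hlog : Real.log (N₂ / N₁) ≤ 2 * m := by
    rw [Real.log_div (by positivity) (by positivity)]
    have h5 : Real.log N₂ = m + m * Real.log H := by
      rw [hN₂, Real.log_mul (Real.exp_pos _).ne' hHm0.ne', Real.log_exp, hlogHm]
    have h6 : -m + m * Real.log H ≤ Real.log N₁ := by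
      have : Real.log (Real.exp (-m) * H ^ m) ≤ Real.log N₁ := Real.log_le_log (by positivity) (le_max_right _ _)
      rw [Real.log_mul (Real.exp_pos _).ne' hHm0.ne', Real.log_exp, hlogHm] at this
      exact this
    linarith
  have hcard : (s'.card : ℝ) ≤ N₂ := by
    have : s' ⊆ Icc 1 ⌊N₂⌋₊ := by
      intro n hn
      rw [Finset.mem_Icc]
      exact ⟨(hb2 n hn).1, Nat.le_floor (hmem n hn).2⟩
    have h5 := Finset.card_le_card this
    rw [Nat.card_Icc, Nat.add_sub_cancel] at h5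
    calc (s'.card : ℝ) ≤ (⌊N₂⌋₊ : ℝ) := by exact_mod_cast h5
      _ ≤ N₂ := Nat.floor_le (by linarith)
  have h5 := h2 s' b N₁ N₂ K hN₁1 hN12 hmem hK
  have hpow : ∀ k : ℤ, ‖DP s a k‖ ^ (2 * m) = ‖DP s' b k‖ ^ 2 := by
    intro k
    rw [← hb1 k, norm_pow, ← pow_mul, mul_comm]
  have hlogpos : 0 ≤ Real.log (N₂ / N₁) := Real.log_nonneg (by rw [le_div_iff₀ (by linarith)]; linarith)
  have hHe : (H ^ (ε / 2)) ^ 2 = H ^ ε := by
    rw [← Real.rpow_natCast, ← Real.rpow_mul hHpos.le]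
    congr 1
    push_cast
    ring
  have hsum : ∑ n ∈ s', ‖b n‖ ^ 2 * ((n : ℝ) + K) ≤ N₂ * (C₁ ^ 2 * H ^ ε * (N₂ + K)) := by
    calc ∑ n ∈ s', ‖b n‖ ^ 2 * ((n : ℝ) + K) ≤ ∑ n ∈ s', C₁ ^ 2 * H ^ ε * (N₂ + K) := by
          refine Finset.sum_le_sum fun n hn => ?_
          have h6 : ‖b n‖ ^ 2 ≤ C₁ ^ 2 * H ^ ε := by
            calc ‖b n‖ ^ 2 ≤ (C₁ * H ^ (ε / 2)) ^ 2 := pow_le_pow_left₀ (norm_nonneg _) (hb3 n hn) 2
              _ = _ := by rw [mul_pow, hHe]
          exact mul_le_mul h6 (by linarith [(hmem n hn).2]) (by positivity) (by positivity)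
      _ = s'.card * (C₁ ^ 2 * H ^ ε * (N₂ + K)) := by rw [Finset.sum_const, nsmul_eq_mul]
      _ ≤ _ := mul_le_mul_of_nonneg_right hcard (by positivity)
  have hfin : N₂ * (N₂ + K) ≤ Real.exp (2 * m) * (H ^ (2 * m) + K * H ^ m) := by
    have e1 : Real.exp (2 * m) = Real.exp m * Real.exp m := by
      rw [← Real.exp_add]
      congr 1
      ring
    have e2 : H ^ (2 * m) = H ^ m * H ^ m := by
      rw [← pow_add]
      congr 1
      ring
    have e3 : Real.exp m * (H ^ m * K) ≤ Real.exp m * Real.exp m * (K * H ^ m) := by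
      have h7 : Real.exp m * 1 ≤ Real.exp m * Real.exp m := mul_le_mul_of_nonneg_left he1 (by positivity)
      have h8 : 0 ≤ (K : ℝ) * H ^ m := by positivity
      nlinarith [mul_le_mul_of_nonneg_right h7 h8]
    rw [e1, e2, hN₂]
    nlinarith [e3]
  calc ∑ k ∈ FK K, ‖DP s a k‖ ^ (2 * m) = ∑ k ∈ FK K, ‖DP s' b k‖ ^ 2 :=
        Finset.sum_congr rfl fun k _ => hpow k
    _ ≤ C₂ * (1 + Real.log (N₂ / N₁)) * ∑ n ∈ s', ‖b n‖ ^ 2 * ((n : ℝ) + K) := h5
    _ ≤ C₂ * (1 + 2 * m) * (N₂ * (C₁ ^ 2 * H ^ ε * (N₂ + K))) := by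
        refine mul_le_mul (mul_le_mul_of_nonneg_left (by linarith) hC₂.le) hsum ?_ (by positivity)
        exact Finset.sum_nonneg fun n _ => by positivity
    _ = C₂ * (1 + 2 * m) * C₁ ^ 2 * H ^ ε * (N₂ * (N₂ + K)) := by ring
    _ ≤ C₂ * (1 + 2 * m) * C₁ ^ 2 * H ^ ε * (Real.exp (2 * m) * (H ^ (2 * m) + K * H ^ m)) :=
        mul_le_mul_of_nonneg_left hfin (by positivity)
    _ = C₂ * (1 + 2 * m) * C₁ ^ 2 * Real.exp (2 * m) * (H ^ ε * (H ^ (2 * m) + K * H ^ m)) := by ring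
    _ ≤ max 1 (C₂ * (1 + 2 * m) * C₁ ^ 2 * Real.exp (2 * m)) * (H ^ ε * (H ^ (2 * m) + K * H ^ m)) :=
        mul_le_mul_of_nonneg_right (le_max_right _ _) (by positivity)
    _ = _ := by ring

end Pool.Agent.Q198.KT
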